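import Pool.Agent.Lib.UCY.Gdef

/-!
# MP_aa59b8_lc: leftmost derivations as sequences of sentential forms
-/

set_option autoImplicit false

namespace Pool.Agent.Lib.UCW

open Pool.Agent.Lib.UCX

/-- One step of a leftmost derivation: the leftmost variable `A` with stack `σ` of the sentential form `u` is rewritten
to `β` by a production `A → α` or `A → B_f` or `A_f → α`. -/
def Step (G : Grammar) (u v : List (Item G)) : Prop :=
  ∃ (k : ℕ) (A : G.V) (σ : List G.I) (β w : List (Item G)),
    u = List.replicate k none ++ some (A, σ) :: w ∧ v = List.replicate k none ++ (β ++ w) ∧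
    ((∃ α, (A, α) ∈ G.ctx ∧ β = inst σ α) ∨ (∃ B f, (A, B, f) ∈ G.push ∧ β = [some (B, f :: σ)]) ∨
      ∃ f τ α, σ = f :: τ ∧ (A, f, α) ∈ G.pop ∧ β = inst τ α)

/-- `LDer G d n`: the list `d` of sentential forms is a leftmost derivation of the word `0^n` from the start variable
with the empty stack. -/
def LDer (G : Grammar) (d : List (List (Item G))) (n : ℕ) : Prop :=
  d.head? = some [some (G.start, [])] ∧ d.getLast? = some (List.replicate n none) ∧ d.IsChain (Step G)

/-- The `n` such that `0^n` is in the language of `G`. -/
def Gen (G : Grammar) : Set ℕ := {n | ∃ d, LDer G d n}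

/-- The `n` such that `0^n` has at least two leftmost derivations. -/
def Amb (G : Grammar) : Set ℕ := {n | ∃ d d', d ≠ d' ∧ LDer G d n ∧ LDer G d' n}

end Pool.Agent.Lib.UCW
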