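import Pool.Agent.Lib.UCX.Ins
import Pool.Agent.Lib.UCW.Gdef

/-!
# UCW: auxiliary definitions
-/

set_option autoImplicit false

namespace Pool.Agent.Lib.UCW

open Pool.Agent.Lib.UCX

/-- `Tr G k l w n d`: the productions `l`, applied from the form `0^k w` on, lead to `0^(k+n)`, and `d` is the sequence of
the sentential forms. -/
inductive Tr (G : Grammar) : ℕ → List (Prd G) → List (Item G) → ℕ → List (List (Item G)) → Prop
  | nil (k : ℕ) : Tr G k [] [] 0 [List.replicate k none]
  | zero {k : ℕ} {l : List (Prd G)} {w : List (Item G)} {n : ℕ} {d : List (List (Item G))} :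
      Tr G (k + 1) l w n d → Tr G k l (none :: w) (n + 1) d
  | ctx {k : ℕ} {l : List (Prd G)} {w : List (Item G)} {n : ℕ} {d : List (List (Item G))} {A : G.V}
      {α : List (Sym G.V)} {σ : List G.I} :
      (A, α) ∈ G.ctx → Tr G k l (inst σ α ++ w) n d →
        Tr G k (Prd.ctx A α :: l) (some (A, σ) :: w) n ((List.replicate k none ++ some (A, σ) :: w) :: d)
  | push {k : ℕ} {l : List (Prd G)} {w : List (Item G)} {n : ℕ} {d : List (List (Item G))} {A B : G.V}
      {f : G.I} {σ : List G.I} :
      (A, B, f) ∈ G.push → Tr G k l (some (B, f :: σ) :: w) n d →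
        Tr G k (Prd.push A B f :: l) (some (A, σ) :: w) n ((List.replicate k none ++ some (A, σ) :: w) :: d)
  | pop {k : ℕ} {l : List (Prd G)} {w : List (Item G)} {n : ℕ} {d : List (List (Item G))} {A : G.V}
      {f : G.I} {α : List (Sym G.V)} {σ : List G.I} :
      (A, f, α) ∈ G.pop → Tr G k l (inst σ α ++ w) n d →
        Tr G k (Prd.pop A f α :: l) (some (A, f :: σ) :: w) n
          ((List.replicate k none ++ some (A, f :: σ) :: w) :: d)

/-- no word without variables is the right-hand side for `A` both with and without pop -/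
def Sep (G : Grammar) : Prop := ∀ A f α, (A, α) ∈ G.ctx → (A, f, α) ∈ G.pop → nvar α ≠ 0

/-- `G` without the productions `A_f → 0^k` for which there is also a production `A → 0^k` -/
def red (G : Grammar) : Grammar where
  V := G.V
  I := G.I
  finV := G.finV
  finI := G.finI
  start := G.start
  ctx := G.ctx
  push := G.push
  pop := {x | x ∈ G.pop ∧ ¬ (nvar x.2.2 = 0 ∧ (x.1, x.2.2) ∈ G.ctx)}
  finCtx := G.finCtx
  finPush := G.finPush
  finPop := G.finPop.subset fun _ h => h.1

/-- the value, capped at `N + 1`, is added to the states of a system -/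
def cap (S : Sys) (N : ℕ) : Sys where
  Q := S.Q × Fin (N + 2)
  E := S.E × Fin (N + 2)
  finQ := by
    have := S.finQ
    infer_instance
  finE := by
    have := S.finE
    infer_instance
  q0 := (S.q0, 0)
  src := fun e => (S.src e.1, e.2)
  tgt := fun e => (S.tgt e.1, ⟨min (S.b e.1 * e.2.1 + S.d e.1) (N + 1), by omega⟩)
  b := fun e => S.b e.1
  d := fun e => S.d e.1
  fin := {q | q.1 ∈ S.fin ∧ q.2.1 = N + 1}

end Pool.Agent.Lib.UCW
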