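import Pool.Agent.Lib.UCX.Pth
import Pool.Agent.Lib.UCW.Defs

/-!
# UCW / Cap: the capped system

PROOF IN WORDS. `cap_down`: a path of `cap S N` from `q0` to `(q, c)` gives, by forgetting the second components, a path of `S` to `q` with the same value, and `c = min (value) (N + 1)` (induction; for the step: `c' = min (b c + d) (N + 1)` and `min (b * min v (N+1) + d) (N+1) = min (b v + d) (N+1)`: if `v ≤ N` clear, otherwise `b = 0`: clear, `b ≥ 1`: both are `N + 1`). `cap_inj`: on paths from `q0` the forgetting is injective: induction, the last edge `(e, c)` has `c` = the second component of the end state of the rest = `min (value of the rest) (N+1)` by `cap_down`. `cap_up`: every path of `S` from `q0` can be lifted. `cap_uniq`, `cap_vals`: final states of `cap` are those with value `> N` (`min v (N+1) = N+1 ↔ N < v`).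
-/

set_option autoImplicit false

namespace Pool.Agent.Lib.UCW

open Pool.Agent.Lib.UCX

private theorem min_arith (b v d N : ℕ) :
    min (b * min v (N + 1) + d) (N + 1) = min (b * v + d) (N + 1) := by
  rcases le_total v (N + 1) with h | h
  · rw [min_eq_left h]
  · rw [min_eq_right h]
    rcases Nat.eq_zero_or_pos b with hb | hb
    · subst hb
      simp
    · have h1 : N + 1 ≤ b * (N + 1) := Nat.le_mul_of_pos_left _ hb
      have h2 : N + 1 ≤ b * v := h.trans (Nat.le_mul_of_pos_left _ hb)
      rw [min_eq_right (by omega), min_eq_right (by omega)]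

/-- the second components are forgotten -/
private def pr (S : Sys) (N : ℕ) : List (cap S N).E → List S.E
  | [] => []
  | e :: w => e.1 :: pr S N w

private theorem cap_down (S : Sys) (N : ℕ) : ∀ (w : List (cap S N).E) (q : (cap S N).Q),
    Path (cap S N) (cap S N).q0 w q →
      Path S S.q0 (pr S N w) q.1 ∧ val (cap S N) w = val S (pr S N w) ∧
        q.2.1 = min (val S (pr S N w)) (N + 1) := by
  intro w
  induction w with
  | nil =>
    intro q h
    cases h
    refine ⟨Path.nil _, rfl, ?_⟩
    show (0 : ℕ) = min 0 (N + 1)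
    simp
  | cons e w ih =>
    intro q h
    cases h with
    | cons _ h' =>
      obtain ⟨h1, h2, h3⟩ := ih _ h'
      refine ⟨Path.cons (S := S) e.1 h1, ?_, ?_⟩
      · show S.b e.1 * val (cap S N) w + S.d e.1 = S.b e.1 * val S (pr S N w) + S.d e.1
        rw [h2]
      · show min (S.b e.1 * e.2.1 + S.d e.1) (N + 1) =
          min (S.b e.1 * val S (pr S N w) + S.d e.1) (N + 1)
        have h4 : e.2.1 = min (val S (pr S N w)) (N + 1) := h3
        rw [h4]
        exact min_arith _ _ _ _

private theorem cap_inj (S : Sys) (N : ℕ) : ∀ (w w' : List (cap S N).E) (q q' : (cap S N).Q),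
    Path (cap S N) (cap S N).q0 w q → Path (cap S N) (cap S N).q0 w' q' →
      pr S N w = pr S N w' → w = w' := by
  intro w
  induction w with
  | nil =>
    intro w' q q' _ _ h
    cases w' with
    | nil => rfl
    | cons e' w' => exact absurd h (by simp [pr])
  | cons e w ih =>
    intro w' q q' hq hq' h
    cases w' with
    | nil => exact absurd h (by simp [pr])
    | cons e' w' =>
      have h0 : e.1 :: pr S N w = e'.1 :: pr S N w' := h
      obtain ⟨h1, h2⟩ := List.cons.inj h0
      cases hq with
      | cons _ hp =>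
        cases hq' with
        | cons _ hp' =>
          have h3 : w = w' := ih w' _ _ hp hp' h2
          have h4 : e.2.1 = min (val S (pr S N w)) (N + 1) := (cap_down S N _ _ hp).2.2
          have h5 : e'.2.1 = min (val S (pr S N w')) (N + 1) := (cap_down S N _ _ hp').2.2
          have h6 : e = e' := by
            refine Prod.ext h1 (Fin.ext ?_)
            rw [h4, h5, h3]
          rw [h3, h6]

private theorem cap_up (S : Sys) (N : ℕ) : ∀ (l : List S.E) (q : S.Q), Path S S.q0 l q →
    ∃ (w : List (cap S N).E) (c : Fin (N + 2)), Path (cap S N) (cap S N).q0 w (q, c) ∧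
      pr S N w = l := by
  intro l
  induction l with
  | nil =>
    intro q h
    cases h
    exact ⟨[], 0, Path.nil _, rfl⟩
  | cons e l ih =>
    intro q h
    cases h with
    | cons _ h' =>
      obtain ⟨w, c, h1, h2⟩ := ih _ h'
      have h3 : Path (cap S N) (cap S N).q0 ((e, c) :: w) ((cap S N).tgt (e, c)) :=
        Path.cons (S := cap S N) (e, c) h1
      refine ⟨(e, c) :: w, _, h3, ?_⟩
      show e :: pr S N w = e :: l
      rw [h2]

theorem cap_uniq (S : Sys) (N : ℕ) (hu : ∀ (q q' : S.Q) (l l' : List S.E), q ∈ S.fin → q' ∈ S.fin → l ∈ X S q →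
    l' ∈ X S q' → val S l = val S l' → N < val S l → l = l') : Uniq (cap S N) := by
  intro q q' l l' hq hq' hl hl' hv
  obtain ⟨h1, h2, h3⟩ := cap_down S N l q hl
  obtain ⟨h1', h2', h3'⟩ := cap_down S N l' q' hl'
  have h4 : q.2.1 = N + 1 := hq.2
  have h5 : N < val S (pr S N l) := by omega
  refine cap_inj S N l l' q q' hl hl' ?_
  exact hu q.1 q'.1 _ _ hq.1 hq'.1 h1 h1' (by rw [← h2, ← h2', hv]) h5

theorem cap_vals (S : Sys) (N : ℕ) : Vals (cap S N) = {n | n ∈ Vals S ∧ N < n} := by
  ext n
  constructor
  · rintro ⟨q, hq, l, hl, hn⟩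
    obtain ⟨h1, h2, h3⟩ := cap_down S N l q hl
    have h4 : q.2.1 = N + 1 := hq.2
    refine ⟨⟨q.1, hq.1, pr S N l, h1, ?_⟩, ?_⟩
    · rw [← h2, hn]
    · rw [← hn, h2]
      omega
  · rintro ⟨⟨q, hq, l, hl, hn⟩, hN⟩
    obtain ⟨w, c, h1, h2⟩ := cap_up S N l q hl
    obtain ⟨_, h4, h5⟩ := cap_down S N w (q, c) h1
    refine ⟨(q, c), ⟨hq, ?_⟩, w, h1, ?_⟩
    · show c.1 = N + 1
      have h6 : c.1 = min (val S (pr S N w)) (N + 1) := h5
      rw [h6, h2, hn]
      omega
    · rw [h4, h2, hn]

end Pool.Agent.Lib.UCW
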