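import Pool.Agent.Lib.UCY.Cmp

/-!
# UCW: from derivations to paths, for one word with a unique derivation
-/

set_option autoImplicit false

namespace Pool.Agent.Lib.UCY

open Pool.Agent.Lib.UCX

/-- at most one derivation with this value -/
def Un (G : Grammar) (w : List (Item G)) (n : ℕ) : Prop := ∀ m m', Run G m w n → Run G m' w n → m = m'

private theorem flat_inj {β : Type} {k : ℕ} (hk : 1 ≤ k) {m m' : List β}
    (h : (List.replicate k m).flatten = (List.replicate k m').flatten) : m = m' := by
  have hl := congrArg List.length h
  rw [List.length_flatten, List.length_flatten, List.map_replicate, List.map_replicate,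
    List.sum_replicate, List.sum_replicate, smul_eq_mul, smul_eq_mul] at hl
  have hlen : m.length = m'.length := Nat.eq_of_mul_eq_mul_left (by omega) hl
  obtain ⟨j, rfl⟩ : ∃ j, k = j + 1 := ⟨k - 1, by omega⟩
  rw [List.replicate_succ, List.replicate_succ, List.flatten_cons, List.flatten_cons] at h
  exact (List.append_inj h hlen).1

/-- all copies have the same value, and this value has one derivation -/
private theorem one_copy {G : Grammar} (σ : List G.I) (C : G.V) (α : List (Sym G.V))
    (hα : ∀ s ∈ α, s = Sym.zero ∨ s = Sym.var C) (h0 : nvar α ≠ 0) {m : List (Prd G)} {n : ℕ}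
    (h : Run G m (inst σ α) n) (hu : Un G (inst σ α) n) :
    ∃ m1 n1, m1.length ≤ m.length ∧ Run G m1 [some (C, σ)] n1 ∧ n = nvar α * n1 + nzero α ∧
      Un G [some (C, σ)] n1 := by
  obtain ⟨ms, hlen, hms, hm, hn⟩ := unfill σ C α hα h
  cases ms with
  | nil => exact absurd hlen.symm h0
  | cons x ms' =>
    have hall : ∀ y ∈ x :: ms', y.2 = x.2 := by
      intro y hy
      rcases List.mem_cons.1 hy with rfl | hy'
      · rfl
      · obtain ⟨a, b, rfl⟩ := List.append_of_mem hy'
        have hx := hms x List.mem_cons_self
        have hyr := hms y hy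
        have h1 := fill σ C α hα (y :: (a ++ x :: b)) (by
          rw [← hlen]
          simp only [List.length_cons, List.length_append]) (by
          intro z hz
          apply hms
          simp only [List.mem_cons, List.mem_append] at hz ⊢
          tauto)
        have hsum : ((y :: (a ++ x :: b)).map Prod.snd).sum = ((x :: (a ++ y :: b)).map Prod.snd).sum := by
          simp only [List.map_cons, List.map_append, List.sum_cons, List.sum_append]
          omega
        rw [hsum, ← hn] at h1
        have h2 := hu _ _ h h1
        rw [hm] at h2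
        simp only [List.map_cons, List.flatten_cons] at h2
        rcases List.append_eq_append_iff.1 h2 with ⟨t, ht, -⟩ | ⟨t, ht, -⟩
        · rw [ht] at hyr
          exact (run_prefix hx hyr).2
        · rw [ht] at hx
          exact (run_prefix hyr hx).2.symm
    have hsum : ((x :: ms').map Prod.snd).sum = nvar α * x.2 := by
      have h3 : (x :: ms').map Prod.snd = List.replicate (x :: ms').length x.2 := by
        rw [List.eq_replicate_iff]
        refine ⟨by rw [List.length_map], ?_⟩
        intro b hb
        obtain ⟨y, hy, rfl⟩ := List.mem_map.1 hb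
        exact hall y hy
      rw [h3, hlen, List.sum_replicate, smul_eq_mul]
    have hn' : n = nvar α * x.2 + nzero α := by rw [hn, hsum]
    refine ⟨x.1, x.2, ?_, hms x List.mem_cons_self, hn', ?_⟩
    · rw [hm, List.map_cons, List.flatten_cons, List.length_append]
      omega
    · have key : ∀ m1, Run G m1 [some (C, σ)] x.2 →
          Run G (List.replicate (nvar α) m1).flatten (inst σ α) n := by
        intro m1 h1
        have h2 := fill σ C α hα (List.replicate (nvar α) (m1, x.2)) (by rw [List.length_replicate])
          (fun z hz => by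
            have hz' := List.eq_of_mem_replicate hz
            rw [hz']
            exact h1)
        rw [List.map_replicate, List.map_replicate, List.sum_replicate, smul_eq_mul, ← hn'] at h2
        exact h2
      intro m1 m2 h1 h2
      exact flat_inj (by omega) (hu _ _ (key _ h1) (key _ h2))

private theorem no_copy {G : Grammar} (σ : List G.I) (C : G.V) (α : List (Sym G.V))
    (hα : ∀ s ∈ α, s = Sym.zero ∨ s = Sym.var C) (h0 : nvar α = 0) {m : List (Prd G)} {n : ℕ}
    (h : Run G m (inst σ α) n) : n = nzero α := by
  obtain ⟨ms, hlen, hms, hm, hn⟩ := unfill σ C α hα h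
  have hms0 : ms = [] := List.length_eq_zero_iff.1 (by rw [hlen, h0])
  rw [hn, hms0]
  simp

/-- the steps at one height -/
private theorem inner {G : Grammar} {P : Set G.V} (hk : OneKind G P)
    {l : List (Edge G)} {D : G.V} (h : EPath G P l (Sum.inl (D, false)))
    (hpop : ∀ B ∈ P, ∀ (f : G.I) (σ : List G.I) (α : List (Sym G.V)) (m : List (Prd G)) (n : ℕ),
      stk l = f :: σ → (B, f, α) ∈ G.pop → Un G (inst σ α) n → Run G m (inst σ α) n →
      ∃ l', EPath G P l' (Sum.inr (D, B, false)) ∧ eval l' = n) :
    ∀ (k : ℕ) (B : G.V), B ∈ P → ∀ (m : List (Prd G)) (n : ℕ), m.length ≤ k → Un G [some (B, stk l)] n →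
      Run G m [some (B, stk l)] n → ∃ l', EPath G P l' (Sum.inr (D, B, false)) ∧ eval l' = n := by
  intro k
  induction k with
  | zero =>
    intro B hB m n hm hc hr
    exfalso
    have hm' : m = [] := List.length_eq_zero_iff.1 (by omega)
    subst hm'
    generalize stk l = τ at hr
    cases hr
  | succ k ih =>
    intro B hB m n hm hc hr
    generalize hτ : stk l = τ at hr hc
    cases hr with
    | @ctx m' _ _ _ α _ h1 h2 =>
      rw [List.append_nil] at h2
      rcases hk.ctx _ _ h1 with ⟨h3, -⟩ | ⟨-, C, hC, hα⟩
      · exact absurd hB h3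
      · by_cases h0 : nvar α = 0
        · refine ⟨Edge.stopC D B α :: l, EPath.cons (Edge.stopC D B α) ⟨h1, hB, h0⟩ h, ?_⟩
          show 0 * eval l + nzero α = n
          rw [no_copy τ C α hα h0 h2]
          omega
        · have hun : Un G (inst τ α) n := by
            intro m1 m2 h5 h6
            have h7 := hc (Prd.ctx B α :: m1) (Prd.ctx B α :: m2)
              (Run.ctx h1 (by rw [List.append_nil]; exact h5)) (Run.ctx h1 (by rw [List.append_nil]; exact h6))
            exact (List.cons.inj h7).2
          obtain ⟨m1, n1, hlen, hr1, hn, hu1⟩ := one_copy τ C α hα h0 h2 hun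
          rw [← hτ] at hr1 hu1
          obtain ⟨l'', h5, h6⟩ := ih C hC m1 n1 (by rw [List.length_cons] at hm; omega) hu1 hr1
          refine ⟨Edge.stepC D B α C :: l'', EPath.cons (Edge.stepC D B α C) ⟨h1, hB, by omega, hα⟩ h5, ?_⟩
          show nvar α * eval l'' + nzero α = n
          rw [h6, hn]
    | push h1 h2 => exact absurd hB (hk.push _ _ _ h1)
    | @pop m' _ _ _ f α σ h1 h2 =>
      rw [List.append_nil] at h2
      have hun : Un G (inst σ α) n := by
        intro m1 m2 h5 h6
        have h7 := hc (Prd.pop B f α :: m1) (Prd.pop B f α :: m2)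
          (Run.pop h1 (by rw [List.append_nil]; exact h5)) (Run.pop h1 (by rw [List.append_nil]; exact h6))
        exact (List.cons.inj h7).2
      exact hpop B hB f σ α m' n hτ h1 hun h2

private theorem comp2N {G : Grammar} {P : Set G.V} (hk : OneKind G P)
    {l : List (Edge G)} {D : G.V} {b : Bool} (h : EPath G P l (Sum.inl (D, b))) {B : G.V} (hB : B ∈ P)
    {m : List (Prd G)} {n : ℕ} (hc : Un G [some (B, stk l)] n) (hr : Run G m [some (B, stk l)] n) :
    ∃ l', EPath G P l' (Sum.inr (D, B, b)) ∧ eval l' = n := by
  induction l generalizing D b B m n with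
  | nil =>
    generalize hq : (Sum.inl (D, b) : St G) = q at h
    cases h with
    | nil =>
      obtain ⟨rfl, rfl⟩ := Prod.mk.inj (Sum.inl.inj hq)
      exact inner hk (l := []) EPath.nil (fun B hB f σ α m n h0 => by cases h0) m.length B hB m n
        le_rfl hc hr
  | cons e t ih =>
    generalize hq : (Sum.inl (D, b) : St G) = q at h
    cases h with
    | cons _ hval hpath =>
      cases e with
      | unitY A D' b' =>
        obtain ⟨rfl, rfl⟩ := Prod.mk.inj (Sum.inl.inj hq)
        obtain ⟨l'', h1, h2⟩ := ih (D := A) (b := b') hpath hB hc hr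
        refine ⟨Edge.unitX A D B b' :: l'', EPath.cons (Edge.unitX A D B b') hval h1, ?_⟩
        show 1 * eval l'' + 0 = n
        rw [h2]
        omega
      | unitX A D' C b' => exact absurd hq (by simp [etgt])
      | pushY A D' f b' =>
        obtain ⟨rfl, rfl⟩ := Prod.mk.inj (Sum.inl.inj hq)
        have hE : EPath G P (Edge.pushY A D f b' :: t) (Sum.inl (D, false)) :=
          EPath.cons (Edge.pushY A D f b') hval hpath
        refine inner hk hE ?_ m.length B hB m n le_rfl hc hr
        intro B' hB' f' σ α m' n' hσ h1 hc' h2
        obtain ⟨rfl, rfl⟩ := List.cons.inj (show f :: stk t = f' :: σ from hσ)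
        obtain ⟨-, C, hC, hα⟩ := hk.pop _ _ _ h1
        by_cases h0 : nvar α = 0
        · refine ⟨Edge.stop A D f B' α b' :: t, EPath.cons (Edge.stop A D f B' α b') ⟨hval, h1, h0⟩ hpath, ?_⟩
          show 0 * eval t + nzero α = n'
          rw [no_copy _ C α hα h0 h2]
          omega
        · obtain ⟨m1, n1, hlen, hr1, hn, hu1⟩ := one_copy _ C α hα h0 h2 hc'
          obtain ⟨l'', h5, h6⟩ := ih (D := A) (b := b') hpath hC hu1 hr1
          refine ⟨Edge.step A D f B' α C b' :: l'',
            EPath.cons (Edge.step A D f B' α C b') ⟨hval, h1, by omega, hα⟩ h5, ?_⟩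
          show nvar α * eval l'' + nzero α = n'
          rw [h6, hn]
      | stop A D' f C α b' => exact absurd hq (by simp [etgt])
      | step A D' f C α C' b' => exact absurd hq (by simp [etgt])
      | stopC A C α => exact absurd hq (by simp [etgt])
      | stepC A C α C' => exact absurd hq (by simp [etgt])

theorem compN {G : Grammar} {P : Set G.V} (hk : OneKind G P) {n : ℕ} (hu : Un G [some (G.start, [])] n)
    {l : List (Edge G)} {A : G.V} {b : Bool} (h : EPath G P l (Sum.inl (A, b))) {m : List (Prd G)}
    (hr : Run G m [some (A, stk l)] n) :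
    ∃ B ∈ P, ∃ l' b', EPath G P l' (Sum.inr (B, B, b')) ∧ eval l' = n := by
  induction m generalizing l A b with
  | nil =>
    exfalso
    generalize stk l = τ at hr
    cases hr
  | cons p m' ih =>
    by_cases hA : A ∈ P
    · have hun : Un G [some (A, stk l)] n := by
        intro m1 m2 h5 h6
        exact List.append_cancel_left (hu _ _ (sound1 h m1 n h5) (sound1 h m2 n h6))
      obtain ⟨l', h1, h2⟩ := comp2N hk h hA hun hr
      exact ⟨A, hA, l', b, h1, h2⟩
    · generalize hτ : stk l = τ at hr
      cases hr with
      | @ctx _ _ _ _ α _ h1 h2 =>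
        rcases hk.ctx _ _ h1 with ⟨-, B, hα⟩ | ⟨h3, -⟩
        · subst hα
          have h3 : EPath G P (Edge.unitY A B b :: l) (Sum.inl (B, true)) :=
            EPath.cons (Edge.unitY A B b) ⟨h1, hA⟩ h
          refine ih h3 ?_
          show Run G m' [some (B, stk l)] n
          rw [hτ]
          exact h2
        · exact absurd h3 hA
      | @push _ _ _ _ B f _ h1 h2 =>
        have h3 : EPath G P (Edge.pushY A B f b :: l) (Sum.inl (B, false)) :=
          EPath.cons (Edge.pushY A B f b) h1 h
        refine ih h3 ?_
        show Run G m' [some (B, f :: stk l)] n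
        rw [hτ]
        exact h2
      | pop h1 h2 => exact absurd (hk.pop _ _ _ h1).1 hA

end Pool.Agent.Lib.UCY
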