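import Pool.Agent.Lib.UCW.TrA

/-!
# UCW / TrB: the productions can be read off from the sentential forms

PROOF IN WORDS. Induction on the first `Tr` (`l'`, `n'` general), cases on the second (both start with the same `k`, `w`, `d`). `nil`: the second is `nil`. `zero`: the second is `zero`. Both start with a variable: the tail of `d` has the head `replicate k none ++ (β ++ w)` for both (`tr_chain`), so (`List.append_cancel_left`, `List.append_cancel_right`) `β = β'` where `β = inst σ α`, `[some (B, f :: σ)]`, or `inst τ α` with `σ = f :: τ`. `inst σ` is injective (a private lemma, induction). `inst σ α = [some (B, f :: σ)]` is impossible (a variable of `inst σ α` has the stack `σ ≠ f :: σ`), also `inst τ α = [some (B, g :: f :: τ)]`; `inst (f :: τ) α = inst τ α'` only without variables, and then `α = α'` and `nvar α = 0`, excluded by `Sep`. So the productions are equal, and the induction hypothesis gives the rest.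
-/

set_option autoImplicit false

namespace Pool.Agent.Lib.UCW

open Pool.Agent.Lib.UCX

/-- the production `p` rewrites `A` with the stack `σ` to `β` -/
private def TbP (G : Grammar) (A : G.V) (σ : List G.I) (p : Prd G) (β : List (Item G)) : Prop :=
  (∃ α, (A, α) ∈ G.ctx ∧ p = Prd.ctx A α ∧ β = inst σ α) ∨
  (∃ B f, (A, B, f) ∈ G.push ∧ p = Prd.push A B f ∧ β = [some (B, f :: σ)]) ∨
  ∃ f τ α, σ = f :: τ ∧ (A, f, α) ∈ G.pop ∧ p = Prd.pop A f α ∧ β = inst τ α

private theorem tb_stack {G : Grammar} (σ τ : List G.I) (B : G.V) (α : List (Sym G.V))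
    (h : some (B, τ) ∈ inst σ α) : τ = σ := by
  unfold inst at h
  obtain ⟨s, -, hs⟩ := List.mem_map.1 h
  cases s with
  | zero => cases hs
  | var A =>
    injection hs with hs
    injection hs with _ hs
    exact hs.symm

private theorem tb_inst {G : Grammar} (σ : List G.I) (α α' : List (Sym G.V))
    (h : inst (G := G) σ α = inst σ α') : α = α' := by
  induction α generalizing α' with
  | nil =>
    cases α' with
    | nil => rfl
    | cons s α' => cases h
  | cons s α ih =>
    cases α' with
    | nil => cases h
    | cons s' α' =>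
      have h1 : inst (G := G) σ α = inst σ α' := (List.cons.inj h).2
      have h2 := (List.cons.inj h).1
      have h3 : s = s' := by
        cases s with
        | zero =>
          cases s' with
          | zero => rfl
          | var A => cases h2
        | var A =>
          cases s' with
          | zero => cases h2
          | var A' =>
            injection h2 with h2
            injection h2 with h2 _
            rw [h2]
      rw [h3, ih α' h1]

private theorem tb_inst2 {G : Grammar} (σ τ : List G.I) (hne : σ ≠ τ) (α α' : List (Sym G.V))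
    (h : inst (G := G) σ α = inst τ α') : α = α' ∧ nvar α = 0 := by
  induction α generalizing α' with
  | nil =>
    cases α' with
    | nil => exact ⟨rfl, rfl⟩
    | cons s α' => cases h
  | cons s α ih =>
    cases α' with
    | nil => cases h
    | cons s' α' =>
      have h1 : inst (G := G) σ α = inst τ α' := (List.cons.inj h).2
      have h2 := (List.cons.inj h).1
      obtain ⟨h3, h4⟩ := ih α' h1
      cases s with
      | zero =>
        cases s' with
        | zero =>
          rw [h3]
          refine ⟨rfl, ?_⟩
          rw [← h3]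
          exact h4
        | var A => cases h2
      | var A =>
        cases s' with
        | zero => cases h2
        | var A' =>
          injection h2 with h2
          injection h2 with _ h2
          exact absurd h2 hne

private theorem tb_uniq {G : Grammar} (hs : Sep G) {A : G.V} {σ : List G.I} {p p' : Prd G}
    {β : List (Item G)} (h : TbP G A σ p β) (h' : TbP G A σ p' β) : p = p' := by
  rcases h with ⟨α, a, rfl, rfl⟩ | ⟨B, f, a, rfl, rfl⟩ | ⟨f, τ, α, rfl, a, rfl, rfl⟩
  · rcases h' with ⟨α', b, rfl, e⟩ | ⟨B', f', b, rfl, e⟩ | ⟨f', τ', α', rfl, b, rfl, e⟩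
    · rw [tb_inst _ _ _ e]
    · exfalso
      have h1 : some (B', f' :: σ) ∈ inst σ α := by
        rw [e]
        exact List.mem_singleton.2 rfl
      exact List.cons_ne_self _ _ (tb_stack _ _ _ _ h1)
    · exfalso
      obtain ⟨h1, h2⟩ := tb_inst2 _ _ (List.cons_ne_self _ _) _ _ e
      subst h1
      exact hs A f' α a b h2
  · rcases h' with ⟨α', b, rfl, e⟩ | ⟨B', f', b, rfl, e⟩ | ⟨f', τ', α', rfl, b, rfl, e⟩
    · exfalso
      have h1 : some (B, f :: σ) ∈ inst σ α' := by
        rw [← e]
        exact List.mem_singleton.2 rfl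
      exact List.cons_ne_self _ _ (tb_stack _ _ _ _ h1)
    · have h1 := (List.cons.inj e).1
      injection h1 with h1
      injection h1 with h1 h2
      injection h2 with h2 _
      rw [h1, h2]
    · exfalso
      have h1 : some (B, f :: f' :: τ') ∈ inst τ' α' := by
        rw [← e]
        exact List.mem_singleton.2 rfl
      have h2 := congrArg List.length (tb_stack _ _ _ _ h1)
      simp only [List.length_cons] at h2
      omega
  · rcases h' with ⟨α', b, rfl, e⟩ | ⟨B', f', b, rfl, e⟩ | ⟨f', τ', α', e1, b, rfl, e⟩
    · exfalso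
      obtain ⟨h1, h2⟩ := tb_inst2 _ _ (List.cons_ne_self _ _) _ _ e.symm
      subst h1
      exact hs A f α' b a h2
    · exfalso
      have h1 : some (B', f' :: f :: τ) ∈ inst τ α := by
        rw [e]
        exact List.mem_singleton.2 rfl
      have h2 := congrArg List.length (tb_stack _ _ _ _ h1)
      simp only [List.length_cons] at h2
      omega
    · injection e1 with e1 e2
      subst e1
      subst e2
      rw [tb_inst _ _ _ e]

private theorem tb_inv {G : Grammar} {k : ℕ} {l : List (Prd G)} {A : G.V} {σ : List G.I}
    {w : List (Item G)} {n : ℕ} {e : List (List (Item G))} (h : Tr G k l (some (A, σ) :: w) n e) :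
    ∃ (β : List (Item G)) (p : Prd G) (l1 : List (Prd G)) (d : List (List (Item G))),
      l = p :: l1 ∧ e = (List.replicate k none ++ some (A, σ) :: w) :: d ∧ Tr G k l1 (β ++ w) n d ∧
        TbP G A σ p β := by
  cases h with
  | ctx a h1 => exact ⟨_, _, _, _, rfl, rfl, h1, Or.inl ⟨_, a, rfl, rfl⟩⟩
  | push a h1 => exact ⟨[_], _, _, _, rfl, rfl, h1, Or.inr (Or.inl ⟨_, _, a, rfl, rfl⟩)⟩
  | pop a h1 => exact ⟨_, _, _, _, rfl, rfl, h1, Or.inr (Or.inr ⟨_, _, _, rfl, a, rfl, rfl⟩)⟩

private theorem tb_step {G : Grammar} (hs : Sep G) {k : ℕ} {l l' : List (Prd G)} {A : G.V}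
    {σ : List G.I} {p : Prd G} {β w : List (Item G)} {n n' : ℕ} {d : List (List (Item G))}
    (hp : TbP G A σ p β) (h : Tr G k l (β ++ w) n d)
    (ih : ∀ {l' : List (Prd G)} {n' : ℕ}, Tr G k l' (β ++ w) n' d → l = l')
    (h' : Tr G k l' (some (A, σ) :: w) n' ((List.replicate k none ++ some (A, σ) :: w) :: d)) :
    p :: l = l' := by
  obtain ⟨β', p', l1, d1, rfl, he, h1, hp'⟩ := tb_inv h'
  have hd : d = d1 := (List.cons.inj he).2
  subst hd
  have e1 := (tr_chain h).1
  have e2 := (tr_chain h1).1
  rw [e1] at e2
  injection e2 with e2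
  have e3 : β = β' := List.append_cancel_right (List.append_cancel_left e2)
  subst e3
  rw [tb_uniq hs hp hp', ih h1]

theorem tr_inj {G : Grammar} (hs : Sep G) {k : ℕ} {l l' : List (Prd G)} {w : List (Item G)} {n n' : ℕ}
    {d : List (List (Item G))} (h : Tr G k l w n d) (h' : Tr G k l' w n' d) : l = l' := by
  induction h generalizing l' n' with
  | nil k =>
    cases h'
    rfl
  | zero h1 ih =>
    cases h' with
    | zero h2 => exact ih h2
  | ctx a h1 ih => exact tb_step hs (Or.inl ⟨_, a, rfl, rfl⟩) h1 ih h'
  | @push k l w n d A B f σ a h1 ih =>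
    exact tb_step (β := [some (B, f :: σ)]) hs (Or.inr (Or.inl ⟨_, _, a, rfl, rfl⟩)) h1 ih h'
  | pop a h1 ih => exact tb_step hs (Or.inr (Or.inr ⟨_, _, _, rfl, a, rfl, rfl⟩)) h1 ih h'

end Pool.Agent.Lib.UCW
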