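import Pool.Agent.Lib.UCW.Defs
import Pool.Agent.Lib.UCX.Run

/-!
# UCW / TrC: from chains of sentential forms to runs; the reduced grammar

PROOF IN WORDS. `run_of_chain`: induction on `d` (`u` general): `d = [u]`: `u = replicate N none`, `Run G [] (replicate N none) N` (private lemma, `Run.zero`). `d = u :: v :: d'`: `Step G u v` with `k`, `A`, `σ`, `β`, `w`; the induction hypothesis is a run `l` from `v = replicate k none ++ (β ++ w)` to `N`; private lemma: then `N = k + n` and `Run G l (β ++ w) n` (cases on `Run.zero`, induction on `k`); so `Run G (p :: l) (some (A, σ) :: w) n`, and the zeros are put back (`Run.zero`, `k` times).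
`red_run`: a run of `red G` is a run of `G` (induction). `run_red`: induction on the run of `G`; a step `pop A f α` which is not in `(red G).pop` has `nvar α = 0` and `(A, α) ∈ ctx`, and `inst σ α = inst (f :: σ) α` (no variables: private lemma), so `Prd.ctx A α` can be used. `red_sep`: by definition. `red_oneKind`: all fields from `h`. Note that `Prd (red G)`, `Item (red G)` unfold to the same `V`, `I`, but `Prd (red G)` is a different inductive type, hence the map `cv`; use `show`, `Run.ctx (G := red G)` and so on.
-/

set_option autoImplicit false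

namespace Pool.Agent.Lib.UCW

open Pool.Agent.Lib.UCX

private theorem run_zeros {G : Grammar} (k : ℕ) {l : List (Prd G)} {w : List (Item G)} {n : ℕ}
    (h : Run G l w n) : Run G l (List.replicate k none ++ w) (n + k) := by
  induction k with
  | zero => exact h
  | succ k ih =>
    rw [List.replicate_succ, List.cons_append]
    exact Run.zero ih

private theorem zeros_run {G : Grammar} (k : ℕ) {l : List (Prd G)} {w : List (Item G)} {N : ℕ}
    (h : Run G l (List.replicate k none ++ w) N) : ∃ n, N = n + k ∧ Run G l w n := by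
  induction k generalizing N with
  | zero => exact ⟨N, rfl, h⟩
  | succ k ih =>
    rw [List.replicate_succ, List.cons_append] at h
    cases h with
    | zero h' =>
      obtain ⟨n, hn, h2⟩ := ih h'
      exact ⟨n, by omega, h2⟩

theorem run_of_chain {G : Grammar} (d : List (List (Item G))) (u : List (Item G)) (N : ℕ)
    (hd : d.head? = some u) (hl : d.getLast? = some (List.replicate N none)) (hc : d.IsChain (Step G)) :
    ∃ l, Run G l u N := by
  induction d generalizing u with
  | nil => cases hd
  | cons a d ih =>
    have hau : a = u := by simpa using hd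
    subst hau
    cases d with
    | nil =>
      have h1 : a = List.replicate N none := by simpa using hl
      have h2 := run_zeros (G := G) N Run.nil
      rw [List.append_nil, zero_add] at h2
      exact ⟨[], h1 ▸ h2⟩
    | cons b d =>
      rw [List.isChain_cons_cons] at hc
      obtain ⟨hs, hc'⟩ := hc
      rw [List.getLast?_cons_cons] at hl
      obtain ⟨l, hr⟩ := ih b rfl hl hc'
      obtain ⟨k, A, σ, β, w, hu, hv, h3⟩ := hs
      rw [hv] at hr
      obtain ⟨n, hn, hr'⟩ := zeros_run k hr
      rw [hn, hu]
      rcases h3 with ⟨α, h1, h2⟩ | ⟨B, f, h1, h2⟩ | ⟨f, τ, α, h1, h2, h3⟩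
      · rw [h2] at hr'
        exact ⟨_, run_zeros k (Run.ctx h1 hr')⟩
      · rw [h2] at hr'
        exact ⟨_, run_zeros k (Run.push h1 hr')⟩
      · rw [h3] at hr'
        rw [h1]
        exact ⟨_, run_zeros k (Run.pop h2 hr')⟩

private theorem inst_red {G : Grammar} (σ : List G.I) (α : List (Sym G.V)) :
    @inst (red G) σ α = @inst G σ α := by
  unfold inst
  refine List.map_congr_left fun s _ => ?_
  cases s <;> rfl

theorem red_step {G : Grammar} {u v : List (Item G)} (h : Step (red G) u v) : Step G u v := by
  obtain ⟨k, A, σ, β, w, hu, hv, h3⟩ := h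
  refine ⟨k, A, σ, β, w, hu, hv, ?_⟩
  rcases h3 with ⟨α, h1, h2⟩ | ⟨B, f, h1, h2⟩ | ⟨f, τ, α, h1, h2, h3⟩
  · exact Or.inl ⟨α, h1, h2.trans (inst_red (G := G) σ α)⟩
  · exact Or.inr (Or.inl ⟨B, f, h1, h2⟩)
  · exact Or.inr (Or.inr ⟨f, τ, α, h1, h2.1, h3.trans (inst_red (G := G) τ α)⟩)

private theorem inst_const {G : Grammar} (σ τ : List G.I) (α : List (Sym G.V)) (h : nvar α = 0) :
    inst σ α = inst τ α := by
  unfold inst
  refine List.map_congr_left fun s hs => ?_
  rw [all_zero α h s hs]

theorem run_red {G : Grammar} {l : List (Prd G)} {w : List (Item G)} {n : ℕ} (h : Run G l w n) :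
    ∃ l', Run (red G) l' w n := by
  induction h with
  | nil => exact ⟨[], Run.nil (G := red G)⟩
  | zero _ ih =>
    obtain ⟨l', h'⟩ := ih
    exact ⟨l', Run.zero (G := red G) h'⟩
  | @ctx l w n A α σ hm _ ih =>
    obtain ⟨l', h'⟩ := ih
    refine ⟨_, Run.ctx (G := red G) (A := A) (α := α) (σ := σ) hm (l := l') ?_⟩
    have e := inst_red (G := G) σ α
    rw [e]
    exact h'
  | @push l w n A B f σ hm _ ih =>
    obtain ⟨l', h'⟩ := ih
    exact ⟨_, Run.push (G := red G) (A := A) (B := B) (f := f) (σ := σ) hm h'⟩
  | @pop l w n A f α σ hm _ ih =>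
    obtain ⟨l', h'⟩ := ih
    by_cases hc : nvar α = 0 ∧ (A, α) ∈ G.ctx
    · refine ⟨_, Run.ctx (G := red G) (A := A) (α := α) (σ := f :: σ) hc.2 (l := l') ?_⟩
      have e : @inst (red G) (f :: σ) α = @inst G σ α :=
        (inst_red (G := G) (f :: σ) α).trans (inst_const _ _ α hc.1)
      let w' : List (Item (red G)) := w
      have h2 : ∀ z : List (Item (red G)), z = @inst G σ α → Run (red G) l' (z ++ w') n := by
        intro z hz
        subst hz
        exact h'
      exact h2 _ e
    · refine ⟨_, Run.pop (G := red G) (A := A) (f := f) (α := α) (σ := σ) ⟨hm, hc⟩ (l := l') ?_⟩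
      have e := inst_red (G := G) σ α
      rw [e]
      exact h'

theorem red_sep (G : Grammar) : Sep (red G) := by
  intro A f α h1 h2 h3
  exact h2.2 ⟨h3, h1⟩

theorem red_oneKind {G : Grammar} {P : Set G.V} (h : Pool.Agent.Lib.UCY.OneKind G P) :
    Pool.Agent.Lib.UCY.OneKind (red G) P := by
  exact ⟨h.ctx, h.push, fun A f α hp => h.pop A f α hp.1⟩

end Pool.Agent.Lib.UCW
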