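import Pool.Agent.Lib.UCX.Zet

/-!
# UCW / Zet: the series of the composite numbers larger than `N`

PROOF IN WORDS. `DirN {n | Composite n} s = DirN {n | Composite n ∧ N < n} s + Σ_{n ≤ N composite} (n+1)^(-s)` for `s > 1` (`summable_cpow`, indicators as in the proof of `comp_sum` in `UCX/Zet.lean`, `tsum_subtype`, `Summable.tsum_add`, `tsum_eq_sum` over `Finset.range (N+1)`), and the finite sum is analytic (`Finset.analyticAt_fun_sum` or differentiable). `Z' s = Z s - (s - 1) * (finite sum)` with `Z` from `comp_sum`.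
-/

set_option autoImplicit false

open Filter Topology Finset

namespace Pool.Agent.Lib.UCW

open Pool.Agent.Lib.UCX

theorem comp_sumN (N : ℕ) : ∃ Z : ℂ → ℂ, AnalyticAt ℂ Z 1 ∧ ∀ s : ℝ, 1 < s →
    ((s : ℂ) - 1) * DirN {n | Composite n ∧ N < n} s = Z s - ((s : ℂ) - 1) * (PS s : ℂ) := by
  classical
  obtain ⟨Z, hZ, hs⟩ := comp_sum
  obtain ⟨S, hS⟩ : ∃ S : Finset ℕ, S = (Finset.range (N + 1)).filter (fun n => Composite n) := ⟨_, rfl⟩
  refine ⟨fun s => Z s - (s - 1) * ∑ n ∈ S, ((n + 1 : ℕ) : ℂ) ^ (-s), ?_, ?_⟩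
  · have h1 : Differentiable ℂ (fun s : ℂ => (s - 1) * ∑ n ∈ S, ((n + 1 : ℕ) : ℂ) ^ (-s)) := by
      refine (differentiable_id.sub_const 1).mul ?_
      refine Differentiable.fun_sum fun n _ => ?_
      refine differentiable_id.neg.const_cpow (Or.inl ?_)
      exact_mod_cast Nat.succ_ne_zero n
    exact hZ.sub (h1.analyticAt 1)
  · intro s h1
    have hsum : Summable fun n : ℕ => ((n + 1 : ℕ) : ℂ) ^ (-(s : ℂ)) :=
      summable_cpow (fun n : ℕ => n) (fun _ _ h => h) h1
    obtain ⟨g, hg⟩ : ∃ g : ℕ → ℂ, g = fun n => ((n + 1 : ℕ) : ℂ) ^ (-(s : ℂ)) := ⟨_, rfl⟩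
    rw [← hg] at hsum
    have e1 : DirN {n | Composite n} s = ∑' n, Set.indicator {n | Composite n} g n := by
      rw [hg]
      exact _root_.tsum_subtype {n | Composite n} (fun n : ℕ => ((n + 1 : ℕ) : ℂ) ^ (-(s : ℂ)))
    have e2 : DirN {n | Composite n ∧ N < n} s = ∑' n, Set.indicator {n | Composite n ∧ N < n} g n := by
      rw [hg]
      exact _root_.tsum_subtype {n | Composite n ∧ N < n} (fun n : ℕ => ((n + 1 : ℕ) : ℂ) ^ (-(s : ℂ)))
    have e3 : ∑' n, Set.indicator (S : Set ℕ) g n = ∑ n ∈ S, g n := by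
      rw [tsum_eq_sum (s := S)]
      · exact Finset.sum_congr rfl fun n hn => Set.indicator_of_mem (Finset.mem_coe.2 hn) _
      · intro n hn
        exact Set.indicator_of_notMem (fun h => hn (Finset.mem_coe.1 h)) _
    have e4 : ∑' n, Set.indicator {n | Composite n} g n =
        ∑' n, Set.indicator {n | Composite n ∧ N < n} g n + ∑' n, Set.indicator (S : Set ℕ) g n := by
      rw [← Summable.tsum_add (hsum.indicator _) (hsum.indicator _)]
      refine tsum_congr fun n => ?_
      by_cases hc : Composite n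
      · rw [Set.indicator_of_mem (show n ∈ {n | Composite n} from hc)]
        by_cases hN : N < n
        · rw [Set.indicator_of_mem (show n ∈ {n | Composite n ∧ N < n} from ⟨hc, hN⟩),
            Set.indicator_of_notMem, add_zero]
          rw [Finset.mem_coe, hS, Finset.mem_filter, Finset.mem_range]
          omega
        · rw [Set.indicator_of_notMem (show n ∉ {n | Composite n ∧ N < n} from fun h => hN h.2),
            Set.indicator_of_mem, zero_add]
          rw [Finset.mem_coe, hS, Finset.mem_filter, Finset.mem_range]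
          exact ⟨by omega, hc⟩
      · rw [Set.indicator_of_notMem (show n ∉ {n | Composite n} from hc),
          Set.indicator_of_notMem (show n ∉ {n | Composite n ∧ N < n} from fun h => hc h.1),
          Set.indicator_of_notMem, add_zero]
        rw [Finset.mem_coe, hS, Finset.mem_filter]
        exact fun h => hc h.2
    rw [e3, ← e1, ← e2] at e4
    have e5 := hs s h1
    rw [e4] at e5
    show _ = Z s - ((s : ℂ) - 1) * ∑ n ∈ S, ((n + 1 : ℕ) : ℂ) ^ (-(s : ℂ)) - _
    have e6 : ∑ n ∈ S, ((n + 1 : ℕ) : ℂ) ^ (-(s : ℂ)) = ∑ n ∈ S, g n := by rw [hg]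
    rw [e6]
    linear_combination e5

end Pool.Agent.Lib.UCW
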