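import Pool.Agent.Lib.UCY.Asm
import Pool.Agent.Lib.UCW.TrB
import Pool.Agent.Lib.UCW.TrC
import Pool.Agent.Lib.UCW.Cap
import Pool.Agent.Lib.UCW.Zet
import Pool.Agent.Lib.UCW.Smn
import Pool.Agent.Lib.UCW.Cmp

/-!
# UCW: assembly
-/

set_option autoImplicit false

namespace Pool.Agent.Lib.UCY

open Pool.Agent.Lib.UCX

private theorem val_eq (G : Grammar) (P : Set G.V) (w : List (sysOf G P).E) :
    val (sysOf G P) w = eval (w.map Subtype.val) := by
  induction w with
  | nil => rfl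
  | cons e w ih =>
    show (sysOf G P).b e * val (sysOf G P) w + (sysOf G P).d e = eb e.1 * eval (w.map Subtype.val) + ed e.1
    rw [ih]
    rfl

private theorem to_epath (G : Grammar) (P : Set G.V) {q' : (sysOf G P).Q} {w : List (sysOf G P).E}
    (h : Path (sysOf G P) (sysOf G P).q0 w q') : EPath G P (w.map Subtype.val) q' := by
  induction h with
  | nil => exact EPath.nil
  | cons e _ ih => exact EPath.cons e.1 e.2 ih

private theorem of_epath (G : Grammar) (P : Set G.V) {q : St G} {l : List (Edge G)}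
    (h : EPath G P l q) : ∃ w : List (sysOf G P).E, w.map Subtype.val = l ∧
      Path (sysOf G P) (sysOf G P).q0 w q := by
  induction h with
  | nil => exact ⟨[], rfl, Path.nil _⟩
  | cons e he _ ih =>
    obtain ⟨w, hw, hp⟩ := ih
    refine ⟨(⟨e, he⟩ : (sysOf G P).E) :: w, ?_, ?_⟩
    · show e :: w.map Subtype.val = _
      rw [hw]
    · exact Path.cons (S := sysOf G P) ⟨e, he⟩ hp

theorem uniqN (G : Grammar) (P : Set G.V) {N : ℕ} (hu : ∀ n, N < n → Un G [some (G.start, [])] n) :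
    ∀ (q q' : (sysOf G P).Q) (l l' : List (sysOf G P).E), q ∈ (sysOf G P).fin → q' ∈ (sysOf G P).fin →
      l ∈ X (sysOf G P) q → l' ∈ X (sysOf G P) q' → val (sysOf G P) l = val (sysOf G P) l' →
      N < val (sysOf G P) l → l = l' := by
  rintro q q' l l' ⟨B, hB, b, rfl⟩ ⟨B', hB', b', rfl⟩ hl hl' hv hN
  have h1 := to_epath G P hl
  have h2 := to_epath G P hl'
  have h3 := sound1 h1 _ _ (sound2 h1 _ _ _ rfl)
  have h4 := sound1 h2 _ _ (sound2 h2 _ _ _ rfl)
  rw [val_eq] at hN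
  rw [val_eq, val_eq] at hv
  rw [hv] at h3 hN
  obtain ⟨h5, h6⟩ := split_enc h1 h2 (hu _ hN _ _ h3 h4)
  exact (List.map_injective_iff.2 Subtype.val_injective) (inj_enc h1 h2 h5 h6)

theorem valsN (G : Grammar) (P : Set G.V) (hk : OneKind G P) {N : ℕ}
    (hu : ∀ n, N < n → Un G [some (G.start, [])] n) (n : ℕ) (hn : N < n) :
    n ∈ Vals (sysOf G P) ↔ n ∈ Lang G := by
  constructor
  · rintro ⟨q, ⟨B, hB, b, rfl⟩, l, hl, rfl⟩
    have h1 := to_epath G P hl
    rw [val_eq]
    exact ⟨_, sound1 h1 _ _ (sound2 h1 _ _ _ rfl)⟩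
  · rintro ⟨m, hm⟩
    obtain ⟨B, hB, l', b, hl', rfl⟩ := compN hk (hu n hn) (l := []) EPath.nil hm
    obtain ⟨w, rfl, hw⟩ := of_epath G P hl'
    exact ⟨_, ⟨B, hB, b, rfl⟩, w, hw, val_eq G P w⟩

end Pool.Agent.Lib.UCY

namespace Pool.Agent.Lib.UCW

open Pool.Agent.Lib.UCX

/-- a run gives a leftmost derivation -/
theorem lder_of_tr {G : Grammar} {l : List (Prd G)} {n : ℕ} {d : List (List (Item G))}
    (h : Tr G 0 l [some (G.start, [])] n d) : LDer G d n := by
  obtain ⟨h1, h2, h3⟩ := tr_chain h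
  rw [List.replicate_zero, List.nil_append] at h1
  rw [Nat.zero_add] at h2
  exact ⟨h1, h2, h3⟩

theorem gen_eq (G : Grammar) : Gen G = Lang G := by
  ext n
  constructor
  · rintro ⟨d, h1, h2, h3⟩
    exact run_of_chain d _ n h1 h2 h3
  · rintro ⟨l, hl⟩
    obtain ⟨d, hd⟩ := tr_exists hl 0
    exact ⟨d, lder_of_tr hd⟩

private theorem lder_red {G : Grammar} {d : List (List (Item G))} {n : ℕ} (h : LDer (red G) d n) :
    LDer G d n := ⟨h.1, h.2.1, h.2.2.imp fun _ _ h' => red_step h'⟩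

theorem main (G : Grammar) (P : Set G.V) (hk : Pool.Agent.Lib.UCY.OneKind G P)
    (hL : (symmDiff (Gen G) {n | Composite n}).Finite) : (Amb G).Infinite := by
  intro hfin
  obtain ⟨N, hN⟩ := (hL.union hfin).bddAbove
  have hlang : ∀ n, N < n → (n ∈ Lang (red G) ↔ Composite n) := by
    intro n hn
    have h1 : n ∉ symmDiff (Gen G) {n | Composite n} := fun h => absurd (hN (Or.inl h)) (by omega)
    have h2 : n ∈ Gen G ↔ Composite n := by
      rw [Set.mem_symmDiff] at h1
      have h3 : n ∈ {n | Composite n} ↔ Composite n := Iff.rfl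
      rw [h3] at h1
      tauto
    rw [← h2]
    constructor
    · rintro ⟨l, hl⟩
      obtain ⟨d, hd⟩ := tr_exists hl 0
      exact ⟨d, lder_red (lder_of_tr hd)⟩
    · intro h
      rw [gen_eq] at h
      obtain ⟨l, hl⟩ := h
      exact run_red hl
  have hun : ∀ n, N < n → Pool.Agent.Lib.UCY.Un (red G) [some ((red G).start, [])] n := by
    intro n hn l l' h h'
    by_contra hne
    obtain ⟨d, hd⟩ := tr_exists h 0
    obtain ⟨d', hd'⟩ := tr_exists h' 0
    have h1 : n ∈ Amb G := by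
      refine ⟨d, d', ?_, lder_red (lder_of_tr hd), lder_red (lder_of_tr hd')⟩
      rintro rfl
      exact hne (tr_inj (red_sep G) hd hd')
    exact absurd (hN (Or.inr h1)) (by omega)
  have hk' := red_oneKind hk
  refine sys_gen (cap (Pool.Agent.Lib.UCY.sysOf (red G) P) N) (cap_uniq _ N (Pool.Agent.Lib.UCY.uniqN (red G) P hun)) ?_
  have hv : Vals (cap (Pool.Agent.Lib.UCY.sysOf (red G) P) N) = {n | Composite n ∧ N < n} := by
    rw [cap_vals]
    ext n
    constructor
    · rintro ⟨h1, h2⟩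
      exact ⟨(hlang n h2).1 ((Pool.Agent.Lib.UCY.valsN (red G) P hk' hun n h2).1 h1), h2⟩
    · rintro ⟨h1, h2⟩
      exact ⟨(Pool.Agent.Lib.UCY.valsN (red G) P hk' hun n h2).2 ((hlang n h2).2 h1), h2⟩
  rw [hv]
  exact comp_sumN N

end Pool.Agent.Lib.UCW
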