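import Mathlib

/-!
# MP_aa59b8_lc: sparse sets
-/

set_option autoImplicit false

namespace Pool.Agent.Lib.UCW

/-- The sum of the `(n + 1)^(-σ)` over the set is finite for some `σ < 1`. -/
def Sparse (D : Set ℕ) : Prop := ∃ σ : ℝ, σ < 1 ∧ Summable fun n : D => (((n : ℕ) : ℝ) + 1) ^ (-σ)

end Pool.Agent.Lib.UCW
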