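import Pool.Agent.Lib.UCW.Zet
import Pool.Agent.Lib.UCW.Sdef

/-!
# UCW: sets which differ from the composite numbers in a sparse set
-/

set_option autoImplicit false

open Filter Topology Finset

namespace Pool.Agent.Lib.UCW

open Pool.Agent.Lib.UCX

private theorem an_sparse {D : Set ℕ} {σ : ℝ} (hσ : σ < 1)
    (h : Summable fun n : D => (((n : ℕ) : ℝ) + 1) ^ (-σ)) :
    AnalyticAt ℂ (fun s : ℂ => ∑' n : D, (((n : ℕ) + 1 : ℕ) : ℂ) ^ (-s)) 1 := by
  have hU : IsOpen {s : ℂ | σ < s.re} := isOpen_lt continuous_const Complex.continuous_re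
  have hD : DifferentiableOn ℂ (fun s : ℂ => ∑' n : D, (((n : ℕ) + 1 : ℕ) : ℂ) ^ (-s)) {s : ℂ | σ < s.re} := by
    refine Complex.differentiableOn_tsum_of_summable_norm h ?_ hU ?_
    · intro n w _
      exact (differentiableAt_id.neg.const_cpow
        (Or.inl (Nat.cast_ne_zero.2 (Nat.succ_ne_zero (n : ℕ))))).differentiableWithinAt
    · intro n w hw
      rw [Complex.norm_natCast_cpow_of_pos (Nat.succ_pos _)]
      have h1 : (1 : ℝ) ≤ (((n : ℕ) + 1 : ℕ) : ℝ) := by exact_mod_cast Nat.succ_le_succ (Nat.zero_le _)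
      have h2 : (((n : ℕ) + 1 : ℕ) : ℝ) = ((n : ℕ) : ℝ) + 1 := by push_cast; ring
      rw [← h2]
      refine Real.rpow_le_rpow_of_exponent_le h1 ?_
      have hw' : σ < w.re := hw
      rw [Complex.neg_re]
      linarith
  refine hD.analyticAt (hU.mem_nhds ?_)
  show σ < (1 : ℂ).re
  rw [Complex.one_re]
  exact hσ

theorem comp_sumD (N : ℕ) (T D : Set ℕ) (hD : Sparse D) (h1 : ∀ n ∈ T, n ∉ D → Composite n ∧ N < n)
    (h2 : ∀ n, Composite n → N < n → n ∉ D → n ∈ T) : ∃ Z : ℂ → ℂ, AnalyticAt ℂ Z 1 ∧ ∀ s : ℝ, 1 < s →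
    ((s : ℂ) - 1) * DirN T s = Z s - ((s : ℂ) - 1) * (PS s : ℂ) := by
  obtain ⟨σ, hσ, hsum⟩ := hD
  obtain ⟨Z, hZ, hs⟩ := comp_sumN N
  have hD1 : T \ {n | Composite n ∧ N < n} ⊆ D := by
    rintro n ⟨h3, h4⟩
    by_contra h5
    exact h4 (h1 n h3 h5)
  have hD2 : {n | Composite n ∧ N < n} \ T ⊆ D := by
    rintro n ⟨⟨h3, h4⟩, h5⟩
    by_contra h6
    exact h5 (h2 n h3 h4 h6)
  have hsub : ∀ U : Set ℕ, U ⊆ D → Summable fun n : U => (((n : ℕ) : ℝ) + 1) ^ (-σ) := fun U hU =>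
    (hsum.comp_injective (Set.inclusion_injective hU) :)
  have hA1 := an_sparse hσ (hsub _ hD1)
  have hA2 := an_sparse hσ (hsub _ hD2)
  refine ⟨fun s => Z s + (s - 1) * ((∑' n : ↥(T \ {n | Composite n ∧ N < n}), (((n : ℕ) + 1 : ℕ) : ℂ) ^ (-s)) -
    ∑' n : ↥({n | Composite n ∧ N < n} \ T), (((n : ℕ) + 1 : ℕ) : ℂ) ^ (-s)), ?_, ?_⟩
  · exact hZ.add ((analyticAt_id.sub analyticAt_const).mul (hA1.sub hA2))
  · intro s h3
    have hsumm : Summable fun n : ℕ => ((n + 1 : ℕ) : ℂ) ^ (-(s : ℂ)) :=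
      summable_cpow (fun n : ℕ => n) (fun _ _ h => h) h3
    have e (U : Set ℕ) : ∑' n : U, (((n : ℕ) + 1 : ℕ) : ℂ) ^ (-(s : ℂ)) =
        ∑' n, Set.indicator U (fun n : ℕ => ((n + 1 : ℕ) : ℂ) ^ (-(s : ℂ))) n :=
      _root_.tsum_subtype U (fun n : ℕ => ((n + 1 : ℕ) : ℂ) ^ (-(s : ℂ)))
    have e4 : DirN T s + ∑' n : ↥({n | Composite n ∧ N < n} \ T), (((n : ℕ) + 1 : ℕ) : ℂ) ^ (-(s : ℂ)) =
        DirN {n | Composite n ∧ N < n} s +
          ∑' n : ↥(T \ {n | Composite n ∧ N < n}), (((n : ℕ) + 1 : ℕ) : ℂ) ^ (-(s : ℂ)) := by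
      unfold DirN
      rw [e, e, e, e, ← Summable.tsum_add (hsumm.indicator _) (hsumm.indicator _),
        ← Summable.tsum_add (hsumm.indicator _) (hsumm.indicator _)]
      refine tsum_congr fun n => ?_
      by_cases ha : n ∈ T <;> by_cases hb : n ∈ {n | Composite n ∧ N < n}
      · rw [Set.indicator_of_mem ha, Set.indicator_of_mem hb, Set.indicator_of_notMem (fun h => h.2 ha),
          Set.indicator_of_notMem (fun h => h.2 hb)]
      · rw [Set.indicator_of_mem ha, Set.indicator_of_notMem hb, Set.indicator_of_notMem (fun h => h.2 ha),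
          Set.indicator_of_mem (show n ∈ T \ {n | Composite n ∧ N < n} from ⟨ha, hb⟩), add_comm]
      · rw [Set.indicator_of_notMem ha, Set.indicator_of_mem hb,
          Set.indicator_of_mem (show n ∈ {n | Composite n ∧ N < n} \ T from ⟨hb, ha⟩),
          Set.indicator_of_notMem (fun h => h.2 hb), add_comm]
      · rw [Set.indicator_of_notMem ha, Set.indicator_of_notMem hb, Set.indicator_of_notMem (fun h => hb h.1),
          Set.indicator_of_notMem (fun h => ha h.1)]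
    have e5 := hs s h3
    show _ = Z s + ((s : ℂ) - 1) * ((∑' n : ↥(T \ {n | Composite n ∧ N < n}), (((n : ℕ) + 1 : ℕ) : ℂ) ^ (-(s : ℂ))) -
      ∑' n : ↥({n | Composite n ∧ N < n} \ T), (((n : ℕ) + 1 : ℕ) : ℂ) ^ (-(s : ℂ))) - _
    linear_combination e5 + ((s : ℂ) - 1) * e4

end Pool.Agent.Lib.UCW
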