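import Pool.Agent.Lib.UCW.Asm
import Pool.Agent.Lib.UCW.Dsum

/-!
# UCW: assembly, languages which differ from the composite numbers in a sparse set
-/

set_option autoImplicit false

namespace Pool.Agent.Lib.UCW

open Pool.Agent.Lib.UCX

private theorem lder_red {G : Grammar} {d : List (List (Item G))} {n : ℕ} (h : LDer (red G) d n) :
    LDer G d n := ⟨h.1, h.2.1, h.2.2.imp fun _ _ h' => red_step h'⟩

theorem mainD (G : Grammar) (P : Set G.V) (hk : Pool.Agent.Lib.UCY.OneKind G P)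
    (hL : Sparse (symmDiff (Gen G) {n | Composite n})) : (Amb G).Infinite := by
  intro hfin
  obtain ⟨N, hN⟩ := hfin.bddAbove
  have hlang : ∀ n, (n ∈ Lang (red G) ↔ n ∈ Gen G) := by
    intro n
    constructor
    · rintro ⟨l, hl⟩
      obtain ⟨d, hd⟩ := tr_exists hl 0
      exact ⟨d, lder_red (lder_of_tr hd)⟩
    · intro h
      rw [gen_eq] at h
      obtain ⟨l, hl⟩ := h
      exact run_red hl
  have hun : ∀ n, N < n → Pool.Agent.Lib.UCY.Un (red G) [some ((red G).start, [])] n := by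
    intro n hn l l' h h'
    by_contra hne
    obtain ⟨d, hd⟩ := tr_exists h 0
    obtain ⟨d', hd'⟩ := tr_exists h' 0
    have h1 : n ∈ Amb G := by
      refine ⟨d, d', ?_, lder_red (lder_of_tr hd), lder_red (lder_of_tr hd')⟩
      rintro rfl
      exact hne (tr_inj (red_sep G) hd hd')
    exact absurd (hN h1) (by omega)
  have hk' := red_oneKind hk
  refine sys_gen (cap (Pool.Agent.Lib.UCY.sysOf (red G) P) N)
    (cap_uniq _ N (Pool.Agent.Lib.UCY.uniqN (red G) P hun)) ?_
  refine comp_sumD N _ _ hL ?_ ?_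
  · intro n hn hD
    rw [cap_vals] at hn
    obtain ⟨h1, h2⟩ := hn
    refine ⟨?_, h2⟩
    have h3 := (hlang n).1 ((Pool.Agent.Lib.UCY.valsN (red G) P hk' hun n h2).1 h1)
    by_contra h4
    exact hD (Or.inl ⟨h3, h4⟩)
  · intro n h1 h2 hD
    rw [cap_vals]
    refine ⟨(Pool.Agent.Lib.UCY.valsN (red G) P hk' hun n h2).2 ((hlang n).2 ?_), h2⟩
    by_contra h4
    exact hD (Or.inr ⟨h1, h4⟩)

end Pool.Agent.Lib.UCW
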