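import Pool.Agent.Lib.UCW.Defs

/-!
# UCW / TrA: the sentential forms of a run

PROOF IN WORDS. `tr_exists`: induction on the run (`k` general). `tr_chain`: induction on `Tr`: head: for `zero` use `replicate (k+1) none ++ w = replicate k none ++ none :: w` (`List.replicate_succ'`, `List.append_assoc`); last: for the steps the tail `d` is not empty (it has a head), `List.getLast?_cons` or similar; chain: the step from the first form to `d.head` is a `Step` with this `k`, `β = inst σ α` (or `[some (B, f :: σ)]`), `w`.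
-/

set_option autoImplicit false

namespace Pool.Agent.Lib.UCW

open Pool.Agent.Lib.UCX

theorem tr_exists {G : Grammar} {l : List (Prd G)} {w : List (Item G)} {n : ℕ} (h : Run G l w n) (k : ℕ) :
    ∃ d, Tr G k l w n d := by
  induction h generalizing k with
  | nil => exact ⟨_, Tr.nil k⟩
  | zero _ ih =>
    obtain ⟨d, hd⟩ := ih (k + 1)
    exact ⟨d, Tr.zero hd⟩
  | ctx hA _ ih =>
    obtain ⟨d, hd⟩ := ih k
    exact ⟨_, Tr.ctx hA hd⟩
  | push hA _ ih =>
    obtain ⟨d, hd⟩ := ih k
    exact ⟨_, Tr.push hA hd⟩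
  | pop hA _ ih =>
    obtain ⟨d, hd⟩ := ih k
    exact ⟨_, Tr.pop hA hd⟩

private theorem cons_chain {G : Grammar} {u v z : List (Item G)} {d : List (List (Item G))}
    (h1 : d.head? = some v) (h2 : d.getLast? = some z) (h3 : d.IsChain (Step G)) (hs : Step G u v) :
    (u :: d).head? = some u ∧ (u :: d).getLast? = some z ∧ (u :: d).IsChain (Step G) := by
  rcases d with _ | ⟨x, d⟩
  · simp at h1
  · rw [List.head?_cons, Option.some.injEq] at h1
    subst h1
    refine ⟨rfl, ?_, ?_⟩
    · rw [List.getLast?_cons_cons]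
      exact h2
    · rw [List.isChain_cons_cons]
      exact ⟨hs, h3⟩

theorem tr_chain {G : Grammar} {k : ℕ} {l : List (Prd G)} {w : List (Item G)} {n : ℕ}
    {d : List (List (Item G))} (h : Tr G k l w n d) :
    d.head? = some (List.replicate k none ++ w) ∧ d.getLast? = some (List.replicate (k + n) none) ∧
      d.IsChain (Step G) := by
  induction h with
  | nil k => simp
  | @zero k l w n d _ ih =>
    obtain ⟨h1, h2, h3⟩ := ih
    refine ⟨?_, ?_, h3⟩
    · rw [h1, List.replicate_succ', List.append_assoc]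
      rfl
    · rw [h2, show k + 1 + n = k + (n + 1) by omega]
  | @ctx k l w n d A α σ hA _ ih =>
    exact cons_chain ih.1 ih.2.1 ih.2.2
      ⟨k, A, σ, inst σ α, w, rfl, rfl, Or.inl ⟨α, hA, rfl⟩⟩
  | @push k l w n d A B f σ hA _ ih =>
    exact cons_chain ih.1 ih.2.1 ih.2.2
      ⟨k, A, σ, [some (B, f :: σ)], w, rfl, rfl, Or.inr (Or.inl ⟨B, f, hA, rfl⟩)⟩
  | @pop k l w n d A f α σ hA _ ih =>
    exact cons_chain ih.1 ih.2.1 ih.2.2
      ⟨k, A, f :: σ, inst σ α, w, rfl, rfl, Or.inr (Or.inr ⟨f, σ, α, rfl, hA, rfl⟩)⟩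

end Pool.Agent.Lib.UCW
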